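import Pool.Agent.Y472.F.Main3s

/-!
# Closed 3-braids with many full twists: the growth rate is the volume
-/

set_option autoImplicit false

namespace Pool.Agent.Y472.F

open Finset Filter Topology Metric
open Pool.Agent.W711.HT
open Pool.Agent.W719.AR (Fl)
open Pool.Agent.Y472 Pool.Agent.Y482.Chi
open Pool.Agent.Y481 (cw)
open scoped Real

/-- the growth rate -/
theorem main3u : S_MAIN3S := by
  have hRHO : S_RHO := Pool.Agent.Y105.CB.rho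
  have hTB0 : S_TB0 := Pool.Agent.Y288.CB.tb0
  have hKB3 : S_KB3 := Pool.Agent.Y288.CB.kb3 hTB0 hRHO
  refine main3s Pool.Agent.Y481.bet_pos (fun N ls m hN hl => exact_formula N ls m hN hl)
    Pool.Agent.Y590.CB.kf ?_
    (Pool.Agent.Y833.CB.xlc_of Pool.Agent.Y674.CB.xl Pool.Agent.Y837.CB.pot
      Pool.Agent.Y784.CB.cr Pool.Agent.Y232.CB.el Pool.Agent.Y967.CB.MW.mwk3 hKB3)
    Pool.Agent.Y391.CB.chi Pool.Agent.Y641.CB.sd3
  exact Pool.Agent.Y590.CB.farx2 hTB0 hRHO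

/-- the growth rate is the volume: many full twists -/
theorem growth : ∀ k : ℕ, 1 ≤ k → ∃ M : ℝ, ∀ (ls : List (ℤ × ℤ)) (m : ℤ), ls.length = k →
    (∀ p ∈ ls, M ≤ |(p.1 : ℝ)| ∧ M ≤ |(p.2 : ℝ)|) → M ≤ |(m : ℝ)| →
    ∃ V : ℝ, IsGreatest {W : ℝ | ∃ f g F G : ℕ → Fl, ChiAng (2 * k) (cw ls) m f g F G ∧
        chiVol (2 * k) f g F G = W} V ∧
      Tendsto (fun N : ℕ => 2 * π *
        (Real.log ‖Pool.Agent.H550R3.Jones.cjones N 2 (ftw m ++ bw ls) (vN N)‖ / N)) atTop (𝓝 V) := by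
  obtain ⟨ρ₀, c, C, s, dl, hS, H⟩ := main3u
  intro k hk
  obtain ⟨M, hM⟩ := H k hk
  refine ⟨M, fun ls m h1 h2 h3 => ?_⟩
  obtain ⟨z, χ, hχ, hcr, hlim⟩ := hM ls m h1 h2 h3
  exact ⟨_, geox3 hS (by omega) hcr hχ, hlim.const_mul (2 * π)⟩

end Pool.Agent.Y472.F
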