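import Pool.Agent.Y833.CB.Main3
import Pool.Agent.Y472.A.Final
import Pool.Agent.Y482.Chi.Fin
import Pool.Agent.Y590.CB.KF
import Pool.Agent.Y590.CB.Farx
import Pool.Agent.Y674.CB.XL
import Pool.Agent.Y784.CB.CR
import Pool.Agent.Y232.CB.EL
import Pool.Agent.Y391.CB.Chi2
import Pool.Agent.Y837.CB.Pot
import Pool.Agent.Y967.CB.Mwk3
import Pool.Agent.Y641.CB.SD3
import Pool.Agent.Y105.CB.Rho
import Pool.Agent.Y288.CB.KB3
import Pool.Agent.Y288.CB.TB0

/-!
# Closed 3-braids with many full twists: growth rate and volume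

`main3s` is `main3` of helper833 with the strict bound of `χ`.
-/

set_option autoImplicit false

namespace Pool.Agent.Y472.F

open Finset Filter Topology Metric
open Pool.Agent.W711.HT
open Pool.Agent.Y472 Pool.Agent.Y833.CB
open Pool.Agent.Y481 (itI itN Sep wts cw)
open scoped Real

/-- the growth rate, with a strict bound of `χ` -/
def S_MAIN3S : Prop := ∃ (ρ₀ c C : ℝ) (s dl : ℂ → ℂ → ℂ → ℂ), SD3 ρ₀ c C s dl ∧ ∀ k : ℕ, 1 ≤ k →
  ∃ M : ℝ, ∀ (ls : List (ℤ × ℤ)) (m : ℤ), ls.length = k →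
    (∀ p ∈ ls, M ≤ |(p.1 : ℝ)| ∧ M ≤ |(p.2 : ℝ)|) → M ≤ |(m : ℝ)| →
    ∃ (z : ℕ → ℂ) (χ : ℂ), ‖χ‖ < 1 / 10 ∧ RCrit3 s ρ₀ (2 * k) (cw ls) m z χ ∧
      Tendsto (fun N : ℕ => Real.log ‖Pool.Agent.H550R3.Jones.cjones N 2 (ftw m ++ bw ls) (vN N)‖ / N)
        atTop (𝓝 (RVal3 s (2 * k) (cw ls) m z χ).re)

theorem main3s (hbet : 0 < bet)
    (hEX : ∀ (N : ℕ) (ls : List (ℤ × ℤ)) (m : ℤ), 2 ≤ N → ls ≠ [] →
      ‖Pool.Agent.H550R3.Jones.cjones N 2 (ftw m ++ bw ls) (vN N)‖ =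
      ‖∑ p ∈ range N, deriv (fun χ => wE N m χ * Tf N ls χ) (2 * π * p / N) -
        2 * Complex.I * m * N * ∑ p ∈ range N, wE N m (2 * π * p / N) * Thi N ls p‖)
    (hKF : S_KF)
    (hFAR : ∃ ρs : ℝ, 0 < ρs ∧ ρs ≤ 1 ∧ ∀ ls : List (ℤ × ℤ), ls ≠ [] → FX ρs ls)
    (hXL : S_XLC) (hCHI : S_CHI) (hSD : S_SD3) : S_MAIN3S := by
  obtain ⟨ρ₀, c, C, s, dl, hs⟩ := hSD
  refine ⟨ρ₀, c, C, s, dl, hs, fun k hk => ?_⟩
  obtain ⟨R, c', hR, hR1, hRρ, hc', B, C', M1, hB, hC', hM1, HX⟩ := hXL ρ₀ c C s dl hs k hk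
  obtain ⟨C2, M2, hC2, hM2, HC⟩ := hCHI R c' B (bet / 2) hR hR1 hc' (half_pos hbet)
  obtain ⟨ρs, hρs, -, HF⟩ := hFAR
  have hc1 : 0 < c1 := by have := Real.pi_pos; unfold c1; positivity
  have hk0 : (1 : ℝ) ≤ k := by exact_mod_cast hk
  set μ : ℝ := min (k * c1 * min (R / 8) ρs ^ 2) (bet / 2) with hμ
  have hμ0 : 0 < μ := by positivity
  have hμ1 : μ ≤ bet / 2 := min_le_right _ _
  set M : ℝ := max M1 (max M2 (max (4 * C' / μ) (max (4 * C2 / μ) (20 * C2)))) with hM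
  have m1 : M1 ≤ M := le_max_left _ _
  have m2 : M2 ≤ M := (le_max_left _ _).trans (le_max_right _ _)
  have m3 : 4 * C' / μ ≤ M := (le_max_left _ _).trans ((le_max_right _ _).trans (le_max_right _ _))
  have m4 : 4 * C2 / μ ≤ M := (le_max_left _ _).trans ((le_max_right _ _).trans
    ((le_max_right _ _).trans (le_max_right _ _)))
  have m5 : 20 * C2 ≤ M := (le_max_right _ _).trans ((le_max_right _ _).trans
    ((le_max_right _ _).trans (le_max_right _ _)))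
  have hM0 : 0 < M := lt_of_lt_of_le hM1 m1
  refine ⟨M, fun ls m hlen hls hm => ?_⟩
  have hls0 : ls ≠ [] := by
    rintro rfl
    simp at hlen
    omega
  have hm0 : 0 < |(m : ℝ)| := lt_of_lt_of_le hM0 hm
  obtain ⟨G, z, hGd, hGe, hGb, hMW, hz, hG0⟩ := HX ls hlen
    (fun p hp => ⟨m1.trans (hls p hp).1, m1.trans (hls p hp).2⟩)
  -- the entire functions
  set X : ℕ → ℂ → ℂ := fun N χ => if 2 ≤ N then XN ls N χ else 1 with hX
  have hXN : ∀ N, 2 ≤ N → ∀ χ, X N χ = XN ls N χ := by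
    intro N hN χ
    simp only [hX, if_pos hN]
  have hXNt : ∀ N, 2 ≤ N → ∀ χ, XN ls N χ = (((N : ℂ) / (2 * π)) ^ (2 * ls.length))⁻¹ * Tm N ls χ := by
    intro N hN χ
    have h1 : (N : ℂ) ≠ 0 := by
      have : N ≠ 0 := by omega
      exact_mod_cast this
    have h2 : (π : ℂ) ≠ 0 := by exact_mod_cast Real.pi_ne_zero
    have h3 : ((N : ℂ) / (2 * π)) ^ (2 * ls.length) ≠ 0 :=
      pow_ne_zero _ (div_ne_zero h1 (mul_ne_zero two_ne_zero h2))
    rw [hKF N ls χ hN hls0, inv_mul_cancel_left₀ h3]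
  have hXd : ∀ N, Differentiable ℂ (X N) := by
    intro N
    by_cases hN : 2 ≤ N
    · have : X N = fun χ => (((N : ℂ) / (2 * π)) ^ (2 * ls.length))⁻¹ * Tm N ls χ := by
        funext χ
        rw [hXN N hN, hXNt N hN]
      rw [this]
      exact (differentiable_const _).mul (Tm_diff N ls)
    · have : X N = fun _ => 1 := by
        funext χ
        simp only [hX, if_neg hN]
      rw [this]
      exact differentiable_const _
  have hXe : ∀ N z, X N (-z) = X N z := by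
    intro N w
    by_cases hN : 2 ≤ N
    · rw [hXN N hN, hXN N hN, hXNt N hN, hXNt N hN, Tm_congr N ls (Complex.cos_neg w)]
    · simp only [hX, if_neg hN]
  have hXMW : MW X G (Rc R R) := by
    intro ε hε
    filter_upwards [hMW ε hε, eventually_ge_atTop 2] with N h1 h2 w hw
    rw [hXN N h2]
    exact h1 w hw
  obtain ⟨χ, hχ, hχim, hχn, hχcrit, hχval, hlim⟩ := HC X G hXd hXe hGd hGe hGb hXMW m (m2.trans hm)
  have hχR : χ ∈ Rc R R := ⟨by linarith [hχ.1], by linarith [hχ.2]⟩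
  obtain ⟨hz1, hz2, hz3⟩ := hz χ hχR
  have hC2m : C2 / |(m : ℝ)| ≤ 1 / 20 := by
    rw [div_le_iff₀ hm0]
    linarith
  refine ⟨z χ, χ, by linarith, ⟨⟨by linarith [hχ.1], by linarith [hχ.2]⟩, hχim, by linarith,
    fun j hj => ?_, ?_⟩, ?_⟩
  · obtain ⟨a1, a2, a3, a4⟩ := hz1 j hj
    exact ⟨⟨by linarith [a1.1], by linarith [a1.2]⟩, a2, a3, a4⟩
  · rw [← hz2]
    exact hχcrit
  -- the limit
  set V : ℝ := (Complex.I * m * χ ^ 2 / (2 * π) + Complex.I * χ + G χ).re with hV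
  have hRV : (RVal3 s (2 * k) (cw ls) m (z χ) χ).re = V := by
    rw [hV]
    congr 1
    unfold RVal3
    rw [← hz3]
    ring
  rw [hRV]
  have hV1 : |V - (G 0).re| ≤ μ / 4 := by
    have h1 : C2 / |(m : ℝ)| ≤ μ / 4 := by
      rw [div_le_div_iff₀ hm0 (by norm_num)]
      have h2 : 4 * C2 ≤ M * μ := by rwa [div_le_iff₀ hμ0] at m4
      nlinarith
    have h2 := Complex.abs_re_le_norm
      (Complex.I * m * χ ^ 2 / (2 * π) + Complex.I * χ + G χ - G 0)
    rw [Complex.sub_re] at h2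
    exact h2.trans (hχval.trans h1)
  have hV2 : |(G 0).re - 4 * k * bet| ≤ μ / 4 := by
    have h1 : C' / M ≤ μ / 4 := by
      rw [div_le_div_iff₀ hM0 (by norm_num)]
      have h2 : 4 * C' ≤ M * μ := by rwa [div_le_iff₀ hμ0] at m3
      nlinarith
    have h2 := Complex.abs_re_le_norm (G 0 - ((4 * k * bet : ℝ) : ℂ))
    rw [Complex.sub_re, Complex.ofReal_re] at h2
    exact h2.trans ((hG0 M hls hM0).trans h1)
  have hVlo : 4 * k * bet - μ / 2 ≤ V := by
    have e1 := (abs_le.1 hV1).1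
    have e2 := (abs_le.1 hV2).1
    linarith
  have hVpos : 0 < V := by
    have : bet ≤ 4 * k * bet := by nlinarith
    linarith
  have hlim2 : Tendsto (fun N : ℕ => Real.log ‖∑ p ∈ Icc (-(⌊R / 4 * N / (2 * π)⌋₊ : ℤ))
      ⌊R / 4 * N / (2 * π)⌋₊, deriv (fun χ => wE N m χ * XN ls N χ) (2 * π * p / N)‖ / N) atTop
        (𝓝 V) := by
    refine hlim.congr' ?_
    filter_upwards [eventually_ge_atTop 2] with N hN
    have : (fun χ => wE N m χ * X N χ) = fun χ => wE N m χ * XN ls N χ := by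
      funext w
      rw [hXN N hN]
    rw [this]
  have hlim3 := poly_fac hVpos (2 * ls.length) hlim2
  obtain ⟨A, hA, herr⟩ := err_bd hbet hρs hls0 (HF ls hls0) hKF hR hR1 m
  have hfin := comb (E := fun N => EN N ls m) hVpos (half_pos (half_pos hμ0)) hlim3 (by
    have hbig : ∀ᶠ N : ℕ in atTop, 384 * A / μ ^ 3 ≤ (N : ℝ) :=
      tendsto_natCast_atTop_atTop.eventually_ge_atTop _
    filter_upwards [herr, hbig, eventually_ge_atTop 1] with N herr hbig hN1
    have hN0 : (0 : ℝ) < N := by exact_mod_cast hN1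
    refine herr.trans ?_
    rw [hlen, ← hμ]
    have h1 : A * N ^ 2 ≤ Real.exp (N * (μ / 4)) := by
      have h2 := Real.pow_div_factorial_le_exp (N * (μ / 4)) (by positivity) 3
      refine le_trans ?_ h2
      have h3 : (Nat.factorial 3 : ℝ) = 6 := by norm_num [Nat.factorial]
      rw [h3, le_div_iff₀ (by norm_num)]
      rw [div_le_iff₀ (by positivity)] at hbig
      have h4 : (N * (μ / 4)) ^ 3 = N ^ 2 * (N * μ ^ 3) / 64 := by ring
      rw [h4]
      have h5 : N ^ 2 * (384 * A) ≤ N ^ 2 * (N * μ ^ 3) := by gcongr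
      linarith
    calc A * N ^ 2 * Real.exp (N * (4 * k * bet - μ))
        ≤ Real.exp (N * (μ / 4)) * Real.exp (N * (4 * k * bet - μ)) := by gcongr
      _ = Real.exp (N * (4 * k * bet - μ / 2 - μ / 4)) := by
          rw [← Real.exp_add]; congr 1; ring
      _ ≤ Real.exp (N * (V - μ / 2 / 2)) := by
          refine Real.exp_le_exp.2 (mul_le_mul_of_nonneg_left ?_ hN0.le)
          linarith)
  refine hfin.congr' ?_
  filter_upwards [eventually_ge_atTop 2] with N hN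
  rw [hEX N ls m hN hls0]
  rfl

end Pool.Agent.Y472.F
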